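import Pool.Agent.Helper87.Irr.GoalsA

/-!
MP_033e98_co, cluster route, packet SP.
-/

namespace Irr61

open Finset
open scoped Pointwise

/-- staircase lemma: sums of two sets avoid a small set -/
theorem stair {X Y V : Finset ℕ} (c : ℕ) (hX : X.Nonempty) (hY : Y.Nonempty)
    (h : V.card + 2 ≤ X.card + Y.card) : ∃ x ∈ X, ∃ y ∈ Y, c + x + y ∉ V := by
  by_contra hcon
  push Not at hcon
  have h1 := cauchy_davenport_add_of_linearOrder_isCancelAdd hX hY
  have h2 : ((X + Y).image (fun t => c + t)) ⊆ V := by
    intro t ht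
    obtain ⟨u, hu, rfl⟩ := Finset.mem_image.1 ht
    obtain ⟨x, hx, y, hy, rfl⟩ := Finset.mem_add.1 hu
    have := hcon x hx y hy
    rwa [add_assoc] at this
  have h3 := Finset.card_le_card h2
  rw [Finset.card_image_of_injective _ (fun a b hab => by simpa using hab)] at h3
  omega

/-- counting the admissible labels -/
theorem cnt (p S : ℕ) (V : Finset ℕ) :
    p ≤ ((Icc 1 p).filter (fun x => S + x ∉ V)).card +
      (V.filter (fun w => S < w ∧ w ≤ S + p)).card := by
  have h1 : ((Icc 1 p).filter (fun x => S + x ∈ V)).card ≤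
      (V.filter (fun w => S < w ∧ w ≤ S + p)).card := by
    rw [← Finset.card_image_of_injective (f := fun x => S + x)
      ((Icc 1 p).filter (fun x => S + x ∈ V)) (fun a b hab => by simpa using hab)]
    apply Finset.card_le_card
    intro w hw
    obtain ⟨x, hx, rfl⟩ := Finset.mem_image.1 hw
    simp only [Finset.mem_filter, Finset.mem_Icc] at hx ⊢
    exact ⟨hx.2, by omega, by omega⟩
  have h2 := Finset.card_filter_add_card_filter_not (s := Icc 1 p) (fun x => S + x ∈ V)
  rw [Nat.card_Icc] at h2
  omega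

/-- removing one more value -/
theorem cnt1 (p S e : ℕ) (V : Finset ℕ) :
    p ≤ ((Icc 1 p).filter (fun x => S + x ∉ V ∧ x ≠ e)).card + 1 +
      (V.filter (fun w => S < w ∧ w ≤ S + p)).card := by
  have h1 := cnt p S V
  have h2 : ((Icc 1 p).filter (fun x => S + x ∉ V)) ⊆
      insert e ((Icc 1 p).filter (fun x => S + x ∉ V ∧ x ≠ e)) := by
    intro x hx
    simp only [Finset.mem_insert, Finset.mem_filter] at hx ⊢
    by_cases hxe : x = e
    · exact Or.inl hxe
    · exact Or.inr ⟨hx.1, hx.2, hxe⟩
  have h3 := (Finset.card_le_card h2).trans (Finset.card_insert_le _ _)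
  omega

/-- disjoint windows -/
theorem win {V : Finset ℕ} {P Q : ℕ → Prop} [DecidablePred P] [DecidablePred Q]
    (h : ∀ w ∈ V, P w → ¬ Q w) : (V.filter P).card + (V.filter Q).card ≤ V.card := by
  rw [← Finset.card_union_of_disjoint]
  · exact Finset.card_le_card (Finset.union_subset (Finset.filter_subset _ _)
      (Finset.filter_subset _ _))
  · rw [Finset.disjoint_left]
    intro w hw hw'
    simp only [Finset.mem_filter] at hw hw'
    exact h w hw.1 hw.2 hw'.2

/-- windows with at most one common element -/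
theorem win1 {V : Finset ℕ} {P Q : ℕ → Prop} [DecidablePred P] [DecidablePred Q] (e : ℕ)
    (h : ∀ w ∈ V, P w → Q w → w = e) : (V.filter P).card + (V.filter Q).card ≤ V.card + 1 := by
  rw [← Finset.card_union_add_card_inter]
  have h1 : ((V.filter P) ∪ (V.filter Q)).card ≤ V.card :=
    Finset.card_le_card (Finset.union_subset (Finset.filter_subset _ _)
      (Finset.filter_subset _ _))
  have h2 : ((V.filter P) ∩ (V.filter Q)).card ≤ 1 := by
    have : (V.filter P) ∩ (V.filter Q) ⊆ {e} := by
      intro w hw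
      simp only [Finset.mem_inter, Finset.mem_filter] at hw
      rw [Finset.mem_singleton]
      exact h w hw.1.1 hw.1.2 hw.2.2
    simpa using Finset.card_le_card this
  omega

/-- the last step -/
theorem fin_step {p c S S' : ℕ} {V V' X Y : Finset ℕ} (hVV : V ⊆ V') (hc : p ≤ c)
    (hS : 2 * p ≤ S) (hS' : p ≤ S')
    (hX : ∀ x ∈ X, 1 ≤ x ∧ x ≤ p ∧ S + x ∉ V ∧ c + x ≠ S')
    (hY : ∀ y ∈ Y, 1 ≤ y ∧ y ≤ p ∧ S' + y ∉ V ∧ c + y ≠ S)
    (hcol : ∀ x ∈ X, ∀ y ∈ Y, c + x + y ∉ V' → S + x ≠ S' + y)
    (hXn : 1 ≤ X.card) (hYn : 1 ≤ Y.card) (hcard : V'.card + 2 ≤ X.card + Y.card) :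
    ∃ x y, 1 ≤ x ∧ x ≤ p ∧ 1 ≤ y ∧ y ≤ p ∧ p < S + x ∧ S + x ∉ V ∧ p < S' + y ∧ S' + y ∉ V ∧
    p < c + x + y ∧ c + x + y ∉ V ∧ S + x ≠ S' + y ∧ S + x ≠ c + x + y ∧ S' + y ≠ c + x + y := by
  obtain ⟨x, hx, y, hy, hxy⟩ := stair c (Finset.card_pos.1 hXn) (Finset.card_pos.1 hYn) hcard
  obtain ⟨a1, a2, a3, a4⟩ := hX x hx
  obtain ⟨b1, b2, b3, b4⟩ := hY y hy
  have h1 := hcol x hx y hy hxy
  exact ⟨x, y, a1, a2, b1, b2, by omega, a3, by omega, b3, by omega, fun h => hxy (hVV h), h1,
    by omega, by omega⟩

theorem sP : Irr87.SP := by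
  intro p c S S' V hc hS hS1 hS2 hV
  have hw1 : (V.filter (fun w => S < w ∧ w ≤ S + p)).card ≤ V.card := Finset.card_filter_le _ _
  have hw2 : (V.filter (fun w => S' < w ∧ w ≤ S' + p)).card ≤ V.card := Finset.card_filter_le _ _
  -- the sets with the value excluded only when necessary
  have cX := cnt p S V
  have cY := cnt p S' V
  have cX1 := cnt1 p S (S' - c) V
  have cY1 := cnt1 p S' (S - c) V
  by_cases hA : S = 2 * p ∧ S' = p + 1
  · obtain ⟨rfl, rfl⟩ := hA
    by_cases h1 : 2 * p + 1 ∈ V
    · -- B1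
      have hwin := win1 (V := V) (P := fun w => 2 * p < w ∧ w ≤ 2 * p + p)
        (Q := fun w => p + 1 < w ∧ w ≤ p + 1 + p) (2 * p + 1) (by
          intro w hw hP hQ
          omega)
      refine fin_step (V' := V) (X := (Icc 1 p).filter (fun x => 2 * p + x ∉ V))
        (Y := (Icc 1 p).filter (fun x => p + 1 + x ∉ V ∧ x ≠ 2 * p - c))
        (Finset.Subset.refl _) hc hS hS1 ?_ ?_ ?_ (by omega) (by omega) (by omega)
      · intro x hx
        simp only [Finset.mem_filter, Finset.mem_Icc] at hx
        refine ⟨hx.1.1, hx.1.2, hx.2, ?_⟩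
        intro h
        have : x = 1 := by omega
        subst this
        exact hx.2 h1
      · intro y hy
        simp only [Finset.mem_filter, Finset.mem_Icc] at hy
        exact ⟨hy.1.1, hy.1.2, hy.2.1, by omega⟩
      · intro x hx y hy _ h
        simp only [Finset.mem_filter, Finset.mem_Icc] at hx hy
        have : x = 1 := by omega
        subst this
        exact hx.2 h1
    · have hwin := win (V := V) (P := fun w => 2 * p < w ∧ w ≤ 2 * p + p)
        (Q := fun w => p + 1 < w ∧ w ≤ p + 1 + p) (by
          intro w hw hP hQ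
          have : w = 2 * p + 1 := by omega
          subst this
          exact h1 hw)
      by_cases h2 : c = p
      · -- B2
        subst h2
        refine fin_step (V' := V) (X := (Icc 1 c).filter (fun x => 2 * c + x ∉ V ∧ x ≠ c + 1 - c))
          (Y := (Icc 1 c).filter (fun x => c + 1 + x ∉ V ∧ x ≠ 2 * c - c))
          (Finset.Subset.refl _) hc hS hS1 ?_ ?_ ?_ (by omega) (by omega) (by omega)
        · intro x hx
          simp only [Finset.mem_filter, Finset.mem_Icc] at hx
          exact ⟨hx.1.1, hx.1.2, hx.2.1, by omega⟩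
        · intro y hy
          simp only [Finset.mem_filter, Finset.mem_Icc] at hy
          exact ⟨hy.1.1, hy.1.2, hy.2.1, by omega⟩
        · intro x hx y hy _ h
          simp only [Finset.mem_filter, Finset.mem_Icc] at hx hy
          omega
      · -- B3
        have hci : (insert (c + 1 + p) V).card ≤ V.card + 1 := Finset.card_insert_le _ _
        refine fin_step (V' := insert (c + 1 + p) V)
          (X := (Icc 1 p).filter (fun x => 2 * p + x ∉ V))
          (Y := (Icc 1 p).filter (fun x => p + 1 + x ∉ V ∧ x ≠ 2 * p - c))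
          (Finset.subset_insert _ _) hc hS hS1 ?_ ?_ ?_ (by omega) (by omega) (by omega)
        · intro x hx
          simp only [Finset.mem_filter, Finset.mem_Icc] at hx
          exact ⟨hx.1.1, hx.1.2, hx.2, by omega⟩
        · intro y hy
          simp only [Finset.mem_filter, Finset.mem_Icc] at hy
          exact ⟨hy.1.1, hy.1.2, hy.2.1, by omega⟩
        · intro x hx y hy hv h
          simp only [Finset.mem_filter, Finset.mem_Icc] at hx hy
          have e1 : x = 1 := by omega
          have e2 : y = p := by omega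
          subst e1
          subst e2
          exact hv (Finset.mem_insert_self _ _)
  · -- case A
    have hwin := win (V := V) (P := fun w => S < w ∧ w ≤ S + p)
      (Q := fun w => S' < w ∧ w ≤ S' + p) (by
        intro w hw hP hQ
        omega)
    by_cases h1 : c + 1 ≤ S'
    · -- then c = p, S' = p + 1 and S > 2 p
      refine fin_step (V' := V) (X := (Icc 1 p).filter (fun x => S + x ∉ V ∧ x ≠ S' - c))
        (Y := (Icc 1 p).filter (fun x => S' + x ∉ V))
        (Finset.Subset.refl _) hc hS hS1 ?_ ?_ ?_ (by omega) (by omega) (by omega)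
      · intro x hx
        simp only [Finset.mem_filter, Finset.mem_Icc] at hx
        exact ⟨hx.1.1, hx.1.2, hx.2.1, by omega⟩
      · intro y hy
        simp only [Finset.mem_filter, Finset.mem_Icc] at hy
        exact ⟨hy.1.1, hy.1.2, hy.2, by omega⟩
      · intro x hx y hy _ h
        simp only [Finset.mem_filter, Finset.mem_Icc] at hx hy
        omega
    · refine fin_step (V' := V) (X := (Icc 1 p).filter (fun x => S + x ∉ V))
        (Y := (Icc 1 p).filter (fun x => S' + x ∉ V ∧ x ≠ S - c))
        (Finset.Subset.refl _) hc hS hS1 ?_ ?_ ?_ (by omega) (by omega) (by omega)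
      · intro x hx
        simp only [Finset.mem_filter, Finset.mem_Icc] at hx
        exact ⟨hx.1.1, hx.1.2, hx.2, by omega⟩
      · intro y hy
        simp only [Finset.mem_filter, Finset.mem_Icc] at hy
        exact ⟨hy.1.1, hy.1.2, hy.2.1, by omega⟩
      · intro x hx y hy _ h
        simp only [Finset.mem_filter, Finset.mem_Icc] at hx hy
        omega

end Irr61
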