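import Pool.Agent.Helper61.Irr.TRun

/-!
MP_033e98_co, cluster route, packet TBot.
-/

namespace Irr61

open Irr37 Irr87

theorem tBot (hEL : Irr87.EL) : Irr87.TBot := by
  intro p s z l X g hz hg hX hX1 hX2 V fill hIn hsize hleaves hfill hnd
  have hs1 : (RF.cons l (RF.cons (Multiset.card X) RF.nil g) RF.nil).size = 2 + g.size := by
    simp [RF.size]; omega
  have hl1 : (RF.cons l (RF.cons (Multiset.card X) RF.nil g) RF.nil).leaves =
      l + Multiset.card X + g.leaves := by
    simp [RF.leaves]; omega
  rw [hs1] at hsize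
  rw [hl1] at hleaves
  have hcl : Multiset.card fill = l := by omega
  have hgw : p ≤ p * g.width := Nat.le_mul_of_pos_right p hg
  obtain ⟨x, a1, a2, a3, a4, a5, a6, a7⟩ := hEL p s z (fill.sum + p * g.width + (p - z)) X.sum V
    hIn (by omega) hX1 hX2 (by omega)
  have h2 := PS.vert (A := X) a1 a2 (PS.nil (p := p)) (PS.cutAll p g)
  have h3 := PS.single (A := fill) (y := p - z) (by omega) (by omega) h2
  rw [hcl] at h3
  refine ⟨(fill.sum + (x + p * g.width) + (p - z)) ::ₘ (X.sum + x) ::ₘ 0, ?_, ?_, ?_⟩
  · have e : X + fill = fill + (X + 0 + 0) := by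
      rw [add_zero, add_zero, add_comm]
    rw [e]
    simpa using h3
  · rw [Multiset.nodup_cons]
    refine ⟨?_, by simp⟩
    simp only [Multiset.cons_zero, Multiset.mem_singleton]
    omega
  · intro u hu
    simp only [Multiset.cons_zero, Multiset.mem_cons, Multiset.mem_singleton] at hu
    have e : fill.sum + (x + p * g.width) + (p - z) = fill.sum + p * g.width + (p - z) + x := by
      omega
    rcases hu with rfl | rfl
    · rw [e]
      exact ⟨a5, a6⟩
    · exact ⟨a3, a4⟩

end Irr61
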