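import Pool.Agent.Helper87.Irr.GoalsT

/-!
MP_033e98_co, cluster route, packets TRun, TBot, TLight.
-/

namespace Irr61

open Irr37 Irr87

theorem wts_nodup {p : ℕ} {Ds : List ℕ} (hn : Ds.Nodup) (hlt : ∀ D ∈ Ds, D < p) :
    (wts p Ds).Nodup := by
  unfold wts
  rw [Multiset.coe_nodup]
  refine List.Nodup.map_on ?_ hn
  intro a ha b hb hab
  have h1 := hlt a ha
  have h2 := hlt b hb
  omega

theorem ChS_lt {p S : ℕ} {Ds : List ℕ} {h : ℕ} (hc : ChS p S Ds h) : ∀ D ∈ Ds, D < p := by
  obtain ⟨D, l, rfl, h1, h2, h3, h4⟩ := hc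
  intro D' hD'
  rcases List.mem_cons.1 hD' with rfl | hD'
  · exact h3
  · exact h4.le D' hD'

/-- unpack a star with one run -/
theorem star_one {p : ℕ} {V : Finset ℕ} {C n S : ℕ} (h : Star p V C [(n, S)]) :
    ∃ (Ds : List ℕ) (h w : ℕ), Ds.length = n ∧ ChS p S Ds h ∧ h < p ∧ Ds.Nodup ∧
      (∀ D ∈ Ds, 2 * p - D ∉ V ∧ 2 * p - D ≠ w) ∧ w + h = C + p ∧ p < w ∧ w ∉ V := by
  obtain ⟨Dss, hs, w, h1, h2, h3, h4, h5, h6⟩ := h
  cases Dss with
  | nil => simp [Runs] at h1
  | cons Ds Dss =>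
    cases hs with
    | nil => simp [Runs] at h1
    | cons h hs =>
      obtain ⟨e1, e2, e3, e4⟩ := h1
      cases Dss with
      | cons _ _ => simp [Runs] at e4
      | nil =>
        cases hs with
        | cons _ _ => simp [Runs] at e4
        | nil =>
          refine ⟨Ds, h, w, e1, e2, e3, by simpa using h2, ?_, ?_, h5, h6⟩
          · intro D hD
            exact h3 D (by simpa using hD)
          · simpa using h4

theorem tRun (hRE : Irr87.RE) : Irr87.TRun := by
  intro p s z l n y g hz hn hy hg V fill hIn hsize hleaves hfill hnd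
  have hs1 : (RF.cons l (app (zrun n y) g) RF.nil).size = 1 + (n + y.size + g.size) := by
    simp [RF.size]
  have hl1 : (RF.cons l (app (zrun n y) g) RF.nil).leaves = l + (y.leaves + g.leaves) := by
    simp [RF.leaves]
  rw [hs1, app_size] at hsize
  rw [hl1, app_leaves, Multiset.card_zero] at hleaves
  have hcl : Multiset.card fill = l := by omega
  have hgw : p ≤ p * g.width := Nat.le_mul_of_pos_right p hg
  have hstar := hRE p n 0 z (fill.sum + p * g.width + (p - z)) V hn hIn (by omega) (by omega)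
  obtain ⟨Ds, h, w, e1, e2, e3, e4, e5, e6, e7, e8⟩ := star_one hstar
  have h1 := PS.openRun (y := y) (by omega) hy e2
  rw [e1] at h1
  have h2 := h1.app (PS.cutAll p g)
  have h3 := PS.single (A := fill) (y := p - z) (by omega) (by omega) h2
  rw [hcl] at h3
  have ew : fill.sum + (p - h + p * g.width) + (p - z) = w := by omega
  rw [ew] at h3
  refine ⟨w ::ₘ (wts p Ds), ?_, ?_, ?_⟩
  · simpa using h3
  · rw [Multiset.nodup_cons]
    refine ⟨?_, wts_nodup e4 (ChS_lt e2)⟩
    intro hw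
    obtain ⟨D, hD, hD'⟩ := mem_wts.1 hw
    exact (e5 D hD).2 hD'
  · intro u hu
    rcases Multiset.mem_cons.1 hu with rfl | hu
    · exact ⟨e7, e8⟩
    · obtain ⟨D, hD, rfl⟩ := mem_wts.1 hu
      have := ChS_lt e2 D hD
      exact ⟨by omega, (e5 D hD).1⟩

end Irr61
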